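import Mathlib
import Pool.Agent.H458.Sp.SmallSol

set_option autoImplicit false

/-!
# Existential sentences over the rationals: sparse solutions can be found by a bounded search

A point of `ℚ ^ n` is sparse with respect to a base `b ≥ 2`, a number `r` and a matrix `c` of
integers if its coordinates are `u i / u 0`, `i = 1, ..., n`, where
`u i = ∑ j < r, c i j * b ^ e j` for natural numbers `e j`.  We show: if a quantifier-free formula
over the field `ℚ` has a sparse solution, for some base `b` and some exponents `e`, then it has a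
sparse solution with the same matrix, a base `b'` and exponents `e'` such that `b'` and all the
powers `b' ^ e' j` are bounded by an explicit function of `r`, of the largest entry of `c`, and of
the number, the degrees and the coefficients of the polynomials in the formula.  So there is an
algorithm which decides whether a given existential sentence has a sparse solution, and all sparse
solutions (in arbitrary bases) can be searched for in a finite box.
-/

namespace Pool.Agent.Results.MP_894b20_lc.SmallSparseSolutions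

open Pool.Agent.H458.Sp MvPolynomial

/-- quantifier-free formulas in `n` variables in the language of rings; an existential sentence is
a quantifier-free formula preceded by existential quantifiers over its variables -/
inductive QF (n : ℕ) : Type
  /-- the equation `F = 0` -/
  | eqn (F : MvPolynomial (Fin n) ℤ) : QF n
  /-- negation -/
  | neg (φ : QF n) : QF n
  /-- conjunction -/
  | conj (φ ψ : QF n) : QF n
  /-- disjunction -/
  | disj (φ ψ : QF n) : QF n

/-- truth of a formula at a rational point -/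
def Holds {n : ℕ} : QF n → (Fin n → ℚ) → Prop
  | .eqn F, q => aeval q F = 0
  | .neg φ, q => ¬ Holds φ q
  | .conj φ ψ, q => Holds φ q ∧ Holds ψ q
  | .disj φ ψ, q => Holds φ q ∨ Holds ψ q

/-- the list of the polynomials in a formula -/
def polys {n : ℕ} : QF n → List (MvPolynomial (Fin n) ℤ)
  | .eqn F => [F]
  | .neg φ => polys φ
  | .conj φ ψ => polys φ ++ polys ψ
  | .disj φ ψ => polys φ ++ polys ψ

/-- the sum of the absolute values of the coefficients of `F` -/
noncomputable def coeffSum {n : ℕ} (F : MvPolynomial (Fin n) ℤ) : ℤ :=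
  ∑ s ∈ F.support, |coeff s F|

/-- the sparse integer with digits `c` and exponents `e` in base `b` -/
def sp {r : ℕ} (b : ℕ) (e : Fin r → ℕ) (c : Fin r → ℤ) : ℤ := ∑ j, c j * (b : ℤ) ^ (e j)

/-- the point with coordinates `sp b e (c i) / sp b e (c 0)` is defined and satisfies the
formula -/
def IsSolution {n r : ℕ} (φ : QF n) (c : Fin (n + 1) → Fin r → ℤ) (b : ℕ) (e : Fin r → ℕ) :
    Prop :=
  sp b e (c 0) ≠ 0 ∧ Holds φ (fun i => (sp b e (c i.succ) : ℚ) / sp b e (c 0))

/-- the bound for the base: `S = (1 + A) (r B) ^ d` -/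
def baseBound (r B d A : ℕ) : ℕ := (1 + A) * (r * B) ^ d

/-- the bound for the powers of the base:
`S ^ (4 κ + (2 κ + 2) ^ r * ((1 + N d) * (2 κ + 1)) * (2 κ + 1))` where `κ = (4 d) ^ r` -/
def powerBound (r B d A N : ℕ) : ℕ :=
  baseBound r B d A ^ (4 * (4 * d) ^ r +
    (2 * (4 * d) ^ r + 2) ^ r * ((1 + N * d) * (2 * (4 * d) ^ r + 1)) * (2 * (4 * d) ^ r + 1))

/-- homogenisation in degree `d` -/
noncomputable def hom {n : ℕ} (d : ℕ) (F : MvPolynomial (Fin n) ℤ) :
    MvPolynomial (Fin (n + 1)) ℤ :=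
  ∑ s ∈ F.support, monomial (Finsupp.cons (d - ∑ i, s i) s) (coeff s F)

theorem hom_degree {n : ℕ} (d : ℕ) (F : MvPolynomial (Fin n) ℤ) (hd : F.totalDegree ≤ d) :
    (hom d F).totalDegree ≤ d := by
  refine totalDegree_finsetSum_le fun s hs => (totalDegree_monomial_le _ _).trans ?_
  have h1 := sum_le_totalDegree F s hs
  rw [Finsupp.sum_fintype _ _ (by simp)]
  simp only [id]
  rw [Fin.sum_univ_succ, Finsupp.cons_zero]
  simp only [Finsupp.cons_succ]
  omega

theorem hom_nz {n : ℕ} (d : ℕ) (F : MvPolynomial (Fin n) ℤ) : nz (hom d F) ≤ nz F := by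
  refine (nz_sum _ _).trans ?_
  unfold nz
  exact Finset.sum_le_sum fun s _ => nz_monomial _ _

theorem hom_eval {n : ℕ} (d : ℕ) (F : MvPolynomial (Fin n) ℤ) (hd : F.totalDegree ≤ d)
    (z : Fin (n + 1) → ℤ) (hz : z 0 ≠ 0) :
    ((eval z (hom d F) : ℤ) : ℚ) =
      (z 0 : ℚ) ^ d * aeval (fun i : Fin n => (z i.succ : ℚ) / z 0) F := by
  have hz' : (z 0 : ℚ) ≠ 0 := by exact_mod_cast hz
  unfold hom
  rw [map_sum, aeval_def, eval₂_eq', Finset.mul_sum]
  push_cast
  refine Finset.sum_congr rfl fun s hs => ?_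
  have h1 : ∑ i, s i ≤ d := (sum_le_totalDegree F s hs).trans hd
  rw [eval_monomial, Finsupp.prod_fintype _ _ (by simp), Fin.prod_univ_succ, Finsupp.cons_zero]
  simp only [Finsupp.cons_succ, div_pow]
  rw [Finset.prod_div_distrib, Finset.prod_pow_eq_pow_sum]
  push_cast
  have h2 : (z 0 : ℚ) ^ d = (z 0 : ℚ) ^ (d - ∑ i, s i) * (z 0 : ℚ) ^ (∑ i, s i) := by
    rw [← pow_add]
    congr 1
    omega
  rw [h2]
  simp only [algebraMap_int_eq, eq_intCast]
  field_simp

theorem hom_zero_iff {n : ℕ} (d : ℕ) (F : MvPolynomial (Fin n) ℤ) (hd : F.totalDegree ≤ d)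
    (z : Fin (n + 1) → ℤ) (hz : z 0 ≠ 0) :
    eval z (hom d F) = 0 ↔ aeval (fun i : Fin n => (z i.succ : ℚ) / z 0) F = 0 := by
  have hz' : (z 0 : ℚ) ≠ 0 := by exact_mod_cast hz
  have h1 := hom_eval d F hd z hz
  constructor
  · intro h
    rw [h, Int.cast_zero] at h1
    exact (mul_eq_zero.1 h1.symm).resolve_left (pow_ne_zero _ hz')
  · intro h
    rw [h, mul_zero] at h1
    exact_mod_cast h1

/-- formulas do not distinguish points at which the same polynomials vanish -/
theorem holds_congr {n : ℕ} (q q' : Fin n → ℚ) (φ : QF n)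
    (h : ∀ F ∈ polys φ, aeval q F = 0 ↔ aeval q' F = 0) : Holds φ q ↔ Holds φ q' := by
  induction φ with
  | eqn F => exact h F (by simp [polys])
  | neg φ ih => exact not_congr (ih h)
  | conj φ ψ ih1 ih2 =>
    exact and_congr (ih1 fun F hF => h F (by simp [polys, hF]))
      (ih2 fun F hF => h F (by simp [polys, hF]))
  | disj φ ψ ih1 ih2 =>
    exact or_congr (ih1 fun F hF => h F (by simp [polys, hF]))
      (ih2 fun F hF => h F (by simp [polys, hF]))

theorem result {n r : ℕ} (φ : QF n) (d A N B : ℕ) (hd1 : 1 ≤ d) (hA1 : 1 ≤ A)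
    (hd : ∀ F ∈ polys φ, F.totalDegree ≤ d) (hA : ∀ F ∈ polys φ, coeffSum F ≤ A)
    (hN : (polys φ).length ≤ N) (c : Fin (n + 1) → Fin r → ℤ) (hc : ∀ i j, |c i j| ≤ B) :
    (∃ (b : ℕ) (e : Fin r → ℕ), 2 ≤ b ∧ IsSolution φ c b e) ↔
      ∃ (b : ℕ) (e : Fin r → ℕ), 2 ≤ b ∧ b ≤ baseBound r B d A ∧
        (∀ j, b ^ (e j) ≤ powerBound r B d A N) ∧ IsSolution φ c b e := by
  classical
  constructor
  swap
  · rintro ⟨b, e, h1, _, _, h2⟩
    exact ⟨b, e, h1, h2⟩
  rintro ⟨b, e, hb, hw, hφ⟩
  set z : Fin (n + 1) → ℤ := fun i => ∑ j, c i j * (b : ℤ) ^ (e j) with hz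
  have hw' : z 0 ≠ 0 := hw
  set q : Fin n → ℚ := fun i => (z i.succ : ℚ) / z 0 with hq
  have hrB : 1 ≤ r * B := by
    by_contra hcon
    apply hw'
    rw [hz]
    rcases Nat.mul_eq_zero.1 (show r * B = 0 by omega) with h | h
    · subst h
      simp
    · have h1 : ∀ j, c 0 j = 0 := fun j => by
        have := hc 0 j
        rw [h] at this
        exact abs_eq_zero.1 (le_antisymm (by simpa using this) (abs_nonneg _))
      simp [h1]
  set FF : Set (MvPolynomial (Fin (n + 1)) ℤ) :=
    {G | ∃ F ∈ polys φ, aeval q F = 0 ∧ G = hom d F} with hFF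
  set NN : Finset (MvPolynomial (Fin n) ℤ) :=
    (polys φ).toFinset.filter (fun F => ¬ aeval q F = 0) with hNN
  set P : MvPolynomial (Fin (n + 1)) ℤ := X 0 * ∏ F ∈ NN, hom d F with hP
  have hPdeg : P.totalDegree ≤ 1 + N * d := by
    refine (totalDegree_mul _ _).trans (Nat.add_le_add (totalDegree_X _).le ?_)
    refine (totalDegree_finsetProd _ _).trans ?_
    calc ∑ F ∈ NN, (hom d F).totalDegree ≤ ∑ _F ∈ NN, d := by
          refine Finset.sum_le_sum fun F hF => hom_degree d F (hd F ?_)
          exact List.mem_toFinset.1 (Finset.mem_filter.1 hF).1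
      _ = NN.card * d := by rw [Finset.sum_const, smul_eq_mul]
      _ ≤ N * d := by
          refine Nat.mul_le_mul_right _ ?_
          exact (Finset.card_filter_le _ _).trans ((List.toFinset_card_le _).trans hN)
  have hP0 : eval z P ≠ 0 := by
    rw [hP, map_mul, eval_X, map_prod]
    refine mul_ne_zero hw' (Finset.prod_ne_zero_iff.2 fun F hF => ?_)
    intro h
    rw [hom_zero_iff d F (hd F (List.mem_toFinset.1 (Finset.mem_filter.1 hF).1)) z hw'] at h
    exact (Finset.mem_filter.1 hF).2 h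
  obtain ⟨b', e', hb2, _, hbS, hpow, h0, h1⟩ := small_solution FF d hd1 A hA1 (by
    rintro G ⟨F, hF, _, rfl⟩
    exact hom_degree d F (hd F hF)) (by
    rintro G ⟨F, hF, _, rfl⟩
    exact (hom_nz d F).trans (hA F hF)) P (1 + N * d) hPdeg b hb B hrB e c hc (by
    rintro G ⟨F, hF, h1, rfl⟩
    exact (hom_zero_iff d F (hd F hF) z hw').2 h1) hP0
  refine ⟨b', e', hb2, hbS, hpow, ?_⟩
  set z' : Fin (n + 1) → ℤ := fun i => ∑ j, c i j * (b' : ℤ) ^ (e' j) with hz'
  have h1' : eval z' P ≠ 0 := h1
  rw [hP, map_mul, eval_X, map_prod] at h1'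
  have hw2 : z' 0 ≠ 0 := left_ne_zero_of_mul h1'
  have hprod := Finset.prod_ne_zero_iff.1 (right_ne_zero_of_mul h1')
  refine ⟨hw2, ?_⟩
  show Holds φ (fun i => (z' i.succ : ℚ) / z' 0)
  rw [← holds_congr q _ φ]
  · exact hφ
  intro F hF
  rw [← hom_zero_iff d F (hd F hF) z' hw2]
  constructor
  · intro h
    exact h0 _ ⟨F, hF, h, rfl⟩
  · intro h
    by_contra hcon
    exact hprod F (Finset.mem_filter.2 ⟨List.mem_toFinset.2 hF, hcon⟩) h

end Pool.Agent.Results.MP_894b20_lc.SmallSparseSolutions
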